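import Pool.Agent.H793.AB.Cv
import Pool.Agent.H793.AB.Main2
import Pool.Agent.H793.AB.Main3

/-!
# The diameter of the universal abelian cover

Let `X` be a compact length space with finite `H_1(X, ℤ)`. We prove that the diameter of the
universal abelian cover is at most `22 (1 + log |H_1(X, ℤ)|)^(3/2) · diam X` and at most
`13 e (1 + log |H_1(X, ℤ)|) · diam X`, where `e` is the exponent of `H_1(X, ℤ)`; so the logarithmic bound holds for all spaces whose `H_1` has bounded exponent.

Idea of the proof. Let `S` be the set of the classes of the loops of length at most `6 diam X` of a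
certain form. A real function on `S` which is additive (whenever `a`, `b` and `a + b` are in `S`) is
a local cocycle on `X` and vanishes, because `H_1` is finite. Let `Λ` be a maximal dissociated subset
of `S`, of cardinality `k ≤ log₂ |H_1|`. The relations `a + b = c` in `S`, written in terms of `Λ` with
coefficients in `{-1, 0, 1}`, are vectors of norm at most `3 √k` and span `ℝ^Λ`. Rounding the
coordinates of an element with respect to a basis of such relations, one finds that every class is a
combination of elements of `Λ` with coefficients of `ℓ²`-norm at most `3k/2`, hence a sum of at most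
`(3/2) k^(3/2)` elements of `±Λ`.
-/

set_option autoImplicit false

open Topology
open scoped unitInterval

namespace Pool.Agent.Results.MP_d05bff_gt.PolylogDiameter

universe u

/-- The length of a (parametrized) curve in a metric space. -/
noncomputable def length {X : Type u} [MetricSpace X] (γ : I → X) : ENNReal :=
  eVariationOn γ Set.univ

/-- `X` is a length space: the distance of two points is the infimum of the lengths of the paths
which join them. (In particular `X` is path connected and locally path connected.) -/
def LengthSpace (X : Type u) [MetricSpace X] : Prop :=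
  ∀ x y : X, ∀ ε : ℝ, 0 < ε → ∃ γ : Path x y, length γ ≤ ENNReal.ofReal (dist x y + ε)

/-- `X` is semi-locally simply connected. -/
def SemiLocallySimplyConnected (X : Type u) [TopologicalSpace X] : Prop :=
  ∀ x : X, ∃ U ∈ 𝓝 x, ∀ γ : Path x x, (∀ t, γ t ∈ U) → γ.Homotopic (Path.refl x)

/-- `H_1(X, ℤ)` of a path connected space: the abelianized fundamental group. -/
abbrev H1 {X : Type u} [TopologicalSpace X] (x₀ : X) : Type u :=
  Abelianization (FundamentalGroup X x₀)

/-- The homology class of a loop. -/
noncomputable def homologyClass {X : Type u} [TopologicalSpace X] {x₀ : X} (γ : Path x₀ x₀) :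
    H1 x₀ :=
  Abelianization.of (FundamentalGroup.fromPath (Path.Homotopic.Quotient.mk γ))

/-- `p : Y → X` is a universal abelian cover: a covering map with path connected `Y`, which belongs
to the commutator subgroup of the fundamental group: a loop of `X` lifts to a loop of `Y` at a given
point of `Y` if and only if its class in `H_1` is trivial. -/
def IsUniversalAbelianCover {X Y : Type u} [TopologicalSpace X] [TopologicalSpace Y]
    (p : Y → X) : Prop :=
  IsCoveringMap p ∧ PathConnectedSpace Y ∧ ∀ (y : Y) (γ : Path (p y) (p y)),
    (∃ l : Path y y, ∀ t, p (l t) = γ t) ↔ homologyClass γ = 1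

/-- The diameter of `Y` for the lifted length metric: the distance of `y` and `z` is the infimum of
the lengths in `X` of the images of the paths from `y` to `z`. -/
noncomputable def liftedDiam {X Y : Type u} [MetricSpace X] [TopologicalSpace Y]
    (p : Y → X) : ENNReal :=
  ⨆ (y : Y) (z : Y), ⨅ (γ : Path y z), length (fun t : I => p (γ t))

/-- **Polylogarithmic bound for the diameter of the universal abelian cover**, and logarithmic bound
if `H_1` has bounded exponent. -/
theorem result (X Y : Type u) [MetricSpace X] [CompactSpace X] [TopologicalSpace Y] (p : Y → X)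
    (hL : LengthSpace X) (hS : SemiLocallySimplyConnected X) (hp : IsUniversalAbelianCover p)
    (x₀ : X) (hfin : Finite (H1 x₀)) :
    liftedDiam p ≤ ENNReal.ofReal (22 * (1 + Real.log (Nat.card (H1 x₀))) ^ (3 / 2 : ℝ) *
      Metric.diam (Set.univ : Set X)) ∧
    liftedDiam p ≤ ENNReal.ofReal (13 * Monoid.exponent (H1 x₀) *
      (1 + Real.log (Nat.card (H1 x₀))) * Metric.diam (Set.univ : Set X)) := by
  have hY : PathConnectedSpace Y := hp.2.1
  obtain ⟨y₀⟩ := hY.nonempty
  have hX : PathConnectedSpace X := by
    have : Nonempty X := ⟨x₀⟩
    refine ⟨this, fun x y => ?_⟩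
    obtain ⟨γ, -⟩ := hL x y 1 one_pos
    exact ⟨γ⟩
  have e : FundamentalGroup X x₀ ≃* FundamentalGroup X (p y₀) :=
    FundamentalGroup.fundamentalGroupMulEquivOfPathConnected x₀ (p y₀)
  obtain ⟨E⟩ : Nonempty (Abelianization (FundamentalGroup X (p y₀)) ≃* H1 x₀) :=
    ⟨e.symm.abelianizationCongr⟩
  have e' : Pool.Agent.H793.AB.H1 (p y₀) ≃ H1 x₀ :=
    (Additive.toMul (α := Abelianization (FundamentalGroup X (p y₀)))).trans E.toEquiv
  have : Finite (Pool.Agent.H793.AB.H1 (p y₀)) := Finite.of_equiv _ e'.symm
  have hcard : Nat.card (Pool.Agent.H793.AB.H1 (p y₀)) = Nat.card (H1 x₀) := Nat.card_congr e'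
  have hp' : Pool.Agent.H793.AB.IsUAC p := hp
  have h1 := Pool.Agent.H793.AB.liftDiam_le hp' y₀
  have h2 := Pool.Agent.H793.AB.coverDiam_le' (X := X) hL hS (p y₀)
  have hexp0 : 0 < Monoid.exponent (H1 x₀) :=
    Nat.pos_of_ne_zero Monoid.exponent_ne_zero_of_finite
  have hexp : ∀ a : Pool.Agent.H793.AB.H1 (p y₀), Monoid.exponent (H1 x₀) • a = 0 := by
    intro a
    have h3 : (Additive.toMul a) ^ Monoid.exponent (H1 x₀) = 1 := by
      apply E.injective
      rw [map_pow, Monoid.pow_exponent_eq_one, map_one]
    exact congrArg Additive.ofMul h3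
  have h4 := Pool.Agent.H793.AB.coverDiam_le_exp (X := X) hL hS (p y₀) _ hexp0 hexp
  rw [hcard] at h2 h4
  exact ⟨h1.trans h2, h1.trans h4⟩

end Pool.Agent.Results.MP_d05bff_gt.PolylogDiameter
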